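import Pool.Agent.Helper33.RSQ.Last

set_option autoImplicit false

open Pool.Agent.Helper33.RSQ

/-- There is an infinite reflexive (and precompact) abelian topological group all of whose
separable quotient groups are trivial. -/
theorem Pool.Agent.Results.MP_06a8b9_al.NoSeparableQuotient.result :
    ∃ (G : Type) (_ : CommGroup G) (_ : TopologicalSpace G) (_ : IsTopologicalGroup G),
      Infinite G ∧ IsReflexiveGroup G ∧ IsPrecompactGroup G ∧
        ∀ N : Subgroup G, IsClosed (N : Set G) →
          TopologicalSpace.SeparableSpace (G ⧸ N) → N = ⊤ :=
  last
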